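import Pool.Agent.H37EP.Fin

/-!
# Integers with at most four prime factors in `(n², n² + K log n]` for 84 per cent of the `n`, with at most three for 35

The question is whether every interval `(n², n² + (log n / log 2)²]`, `n > 4765516`, contains a prime. Here: for at least 84
per cent of all `n` these intervals contain integers with at most FOUR prime factors, and for at least 35 per cent of all `n`
integers with at most THREE, all of them free of prime factors below a power of `n`, and their number has the right order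
of magnitude. This holds already for the length `K log n`, for all lengths `t ∈ [T, 2 T]` at the same time, and in every
window `(Z, Z + Y]`, `Y ≥ X ^ 0.999`, `X` the size of the `n`.

(The hand-in `FivePrimeFactors` has almost all `n`, but five prime factors: the limit of the method there is the level
`X ^ (1 / 2)` of each of the two factors of the second moment. The hand-in `ThreePrimeFactors` has three prime factors for a
positive, very small and unspecified, proportion of the `n`: there the first moment, of level `X`, is compared with the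
second moment of the sifted integers.)

Method (new, `Pool.Agent.H37EP`): the weighted sieve is divided into two parts. The part of level `X ^ (1 / 2)`, which are the
lower bound sieve and the weights at the primes up to `X ^ (2 t)`, `t < 1 / 4`, is concentrated at its mean value
(second moment, with the primes below `X ^ ε₁` sifted exactly). The weights at the primes between `X ^ (2 t)` and `X ^ (2 υ)`,
majorised by the upper bound sieve of level `X`, are nonnegative, and only their MEAN is used, with Markov's inequality.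
The proportion is `1 - ρ`, `ρ` the quotient of the two mean values, which contains only logarithms and the value at `4` of
the function `F` of the linear sieve.
-/

set_option autoImplicit false

namespace Pool.Agent.Results.MP_73869e_nt.ExplicitProportions

open Finset Filter

open Classical in
/-- The number of the integers `m` with `n ^ 2 < m ≤ n ^ 2 + t` which have at most `r` prime factors (counted with
multiplicity), all of them at least `w`. -/
noncomputable def count (r : ℕ) (w : ℝ) (n t : ℕ) : ℕ :=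
  ((Ioc (n ^ 2) (n ^ 2 + t)).filter (fun m : ℕ => m.primeFactorsList.length ≤ r ∧
    ∀ p : ℕ, p.Prime → p ∣ m → w ≤ p)).card

/-! ### The forms of `Pool.Agent.H37SQ` -/

lemma count_eq (r : ℕ) (w : ℝ) (n t : ℕ) : count r w n t = Pool.Agent.H37SQ.cn r w t n := by
  classical
  unfold count Pool.Agent.H37SQ.cn
  symm
  apply card_bij (fun j _ => n ^ 2 + j)
  · intro j hj
    rw [mem_filter, mem_Icc] at hj
    rw [mem_filter, mem_Ioc]
    exact ⟨by omega, hj.2⟩
  · intro a _ b _ h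
    omega
  · intro m hm
    rw [mem_filter, mem_Ioc] at hm
    refine ⟨m - n ^ 2, ?_, by omega⟩
    have e : n ^ 2 + (m - n ^ 2) = m := by omega
    rw [mem_filter, mem_Icc, e]
    exact ⟨by omega, hm.2⟩

lemma count_mono (r : ℕ) (w w' : ℝ) (hw : w' ≤ w) (n t t' : ℕ) (h : t ≤ t') :
    count r w n t ≤ count r w' n t' := by
  classical
  unfold count
  apply card_le_card
  intro m hm
  rw [mem_filter, mem_Ioc] at hm ⊢
  exact ⟨⟨hm.1.1, by omega⟩, hm.2.1, fun p hp hd => hw.trans (hm.2.2 p hp hd)⟩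

open Classical in
/-- windows -/
lemma part1 (r : ℕ) (θ ρ ρ' : ℝ) (hρ : ρ ≤ ρ') (h : Pool.Agent.H37EP.Concl r θ ρ) :
    ∃ c δ K : ℝ, 0 < c ∧ 0 < δ ∧ 0 < K ∧ ∃ X₀ : ℕ, ∀ X : ℕ, X₀ ≤ X →
      ∀ Z Y T : ℕ, (X : ℝ) ^ θ ≤ Y → Z + Y ≤ 2 * X → K * Real.log X ≤ T → (T : ℝ) ≤ Real.log X ^ 49 →
        (1 - ρ') * Y ≤ (((Ioc Z (Z + Y)).filter (fun n : ℕ => ∀ t : ℕ, T ≤ t → t ≤ 2 * T →
          c * t / Real.log X ≤ (count r ((X : ℝ) ^ δ) n t : ℝ))).card : ℝ) := by
  obtain ⟨c, δ, hc, hδ, K, hK, X₀, H⟩ := h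
  refine ⟨c / 2, δ, K, by positivity, hδ, hK, max X₀ 3, fun X hX Z Y T hY hZ hT hT2 => ?_⟩
  have h1 := H X ((le_max_left _ _).trans hX) Z Y T hY hZ hT hT2
  have hX3 : (3 : ℝ) ≤ X := by exact_mod_cast (le_max_right _ _).trans hX
  have hl : 0 < Real.log X := Real.log_pos (by linarith)
  have h2 : (Ioc Z (Z + Y)).filter (fun n => ¬ ((Pool.Agent.H37SQ.cn r ((X : ℝ) ^ δ) T n : ℝ) < c * T / Real.log X)) ⊆
      (Ioc Z (Z + Y)).filter (fun n : ℕ => ∀ t : ℕ, T ≤ t → t ≤ 2 * T →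
          c / 2 * t / Real.log X ≤ (count r ((X : ℝ) ^ δ) n t : ℝ)) := by
    intro n hn
    rw [mem_filter] at hn ⊢
    obtain ⟨h3, h4⟩ := hn
    refine ⟨h3, fun t ht1 ht2 => ?_⟩
    have h5 : ((Pool.Agent.H37SQ.cn r ((X : ℝ) ^ δ) T n : ℕ) : ℝ) ≤ (count r ((X : ℝ) ^ δ) n t : ℝ) := by
      rw [← count_eq]
      exact_mod_cast count_mono r _ _ le_rfl n T t ht1
    refine le_trans ?_ ((not_lt.1 h4).trans h5)
    apply div_le_div_of_nonneg_right _ hl.le
    have h6 : (t : ℝ) ≤ 2 * T := by exact_mod_cast ht2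
    calc c / 2 * (t : ℝ) ≤ c / 2 * (2 * T) := mul_le_mul_of_nonneg_left h6 (by positivity)
      _ = c * T := by ring
  have h3 := card_filter_add_card_filter_not (s := Ioc Z (Z + Y))
    (fun n => (Pool.Agent.H37SQ.cn r ((X : ℝ) ^ δ) T n : ℝ) < c * T / Real.log X)
  rw [Nat.card_Ioc, Nat.add_sub_cancel_left] at h3
  have h4 := card_le_card h2
  have h5 : (Y : ℝ) ≤ (((Ioc Z (Z + Y)).filter (fun n => (Pool.Agent.H37SQ.cn r ((X : ℝ) ^ δ) T n : ℝ) < c * T / Real.log X)).card : ℝ) +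
      (((Ioc Z (Z + Y)).filter (fun n : ℕ => ∀ t : ℕ, T ≤ t → t ≤ 2 * T →
          c / 2 * t / Real.log X ≤ (count r ((X : ℝ) ^ δ) n t : ℝ))).card : ℝ) := by
    have h6 : Y ≤ ((Ioc Z (Z + Y)).filter (fun n => (Pool.Agent.H37SQ.cn r ((X : ℝ) ^ δ) T n : ℝ) < c * T / Real.log X)).card +
      ((Ioc Z (Z + Y)).filter (fun n : ℕ => ∀ t : ℕ, T ≤ t → t ≤ 2 * T →
          c / 2 * t / Real.log X ≤ (count r ((X : ℝ) ^ δ) n t : ℝ))).card := by omega
    exact_mod_cast h6
  have h7 : ρ * Y ≤ ρ' * Y := mul_le_mul_of_nonneg_right hρ (Nat.cast_nonneg _)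
  linarith

open Classical in
/-- the intervals of the question -/
lemma part2 (r : ℕ) (θ ρ ρ' : ℝ) (hθ1 : θ ≤ 1) (hρ : ρ < ρ') (h : Pool.Agent.H37EP.Concl r θ ρ) :
    ∃ c δ : ℝ, 0 < c ∧ 0 < δ ∧ ∃ N₀ : ℕ, ∀ N : ℕ, N₀ ≤ N →
      (1 - ρ') * N ≤ (((Icc 1 N).filter (fun n : ℕ => c * Real.log n ≤
        (count r ((n : ℝ) ^ δ) n ⌊(Real.logb 2 n) ^ 2⌋₊ : ℝ))).card : ℝ) := by
  obtain ⟨c, δ, K, hc, hδ, hK, X₀, H2⟩ := part1 r θ ρ ρ le_rfl h
  have hε : 0 < ρ' - ρ := by linarith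
  refine ⟨c / 8, δ, by positivity, hδ, ?_⟩
  have hlogt : Tendsto (fun X : ℕ => Real.log X) atTop atTop :=
    Real.tendsto_log_atTop.comp tendsto_natCast_atTop_atTop
  have ev1 : ∀ᶠ N : ℕ in atTop, 4 * K + 8 ≤ Real.log N := hlogt.eventually_ge_atTop _
  have ev2 : ∀ᶠ N : ℕ in atTop, 1 / (ρ' - ρ) ≤ (N : ℝ) ^ (1 / 2 : ℝ) :=
    ((tendsto_rpow_atTop (by norm_num)).comp tendsto_natCast_atTop_atTop).eventually_ge_atTop _
  obtain ⟨N1, hN1⟩ := eventually_atTop.1 (ev1.and (ev2.and (eventually_ge_atTop 3)))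
  refine ⟨max X₀ N1, fun N hN => ?_⟩
  obtain ⟨v1, v2, v3⟩ := hN1 N ((le_max_right _ _).trans hN)
  have hNr : (3 : ℝ) ≤ N := by exact_mod_cast v3
  have hN0 : (0 : ℝ) < N := by linarith
  set l : ℝ := Real.log N with hl
  have hl8 : 8 ≤ l := by linarith
  have hl0 : 0 < l := by linarith
  have hlog2 : 0 < Real.log 2 := Real.log_pos (by norm_num)
  have hlog2' : Real.log 2 < 1 := by linarith [Real.log_two_lt_d9]
  set T : ℕ := ⌊l ^ 2 / 4⌋₊ with hT
  have hTle : (T : ℝ) ≤ l ^ 2 / 4 := Nat.floor_le (by positivity)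
  have hTge : l ^ 2 / 8 ≤ T := by
    have h1 := Nat.lt_floor_add_one (l ^ 2 / 4)
    rw [← hT] at h1
    have h2 : 8 * 8 ≤ l ^ 2 := by
      rw [sq]
      exact mul_le_mul hl8 hl8 (by norm_num) hl0.le
    linarith
  have hKT : K * Real.log N ≤ T := by
    refine le_trans ?_ (show l * (l / 4) - 1 ≤ T by
      have h1 := Nat.lt_floor_add_one (l ^ 2 / 4)
      rw [← hT] at h1
      have e : l * (l / 4) = l ^ 2 / 4 := by ring
      rw [e]
      linarith)
    rw [← hl]
    have h2 : l * (K + 2) ≤ l * (l / 4) := mul_le_mul_of_nonneg_left (by linarith) hl0.le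
    have h3 : l * (K + 2) = K * l + 2 * l := by ring
    linarith
  have hT49 : (T : ℝ) ≤ l ^ 49 := by
    refine hTle.trans ?_
    have h1 : l ^ 2 ≤ l ^ 49 := pow_le_pow_right₀ (by linarith) (by norm_num)
    have h2 : 0 ≤ l ^ 2 := by positivity
    linarith
  have hNθ : (N : ℝ) ^ θ ≤ N := by
    calc (N : ℝ) ^ θ ≤ (N : ℝ) ^ (1 : ℝ) := Real.rpow_le_rpow_of_exponent_le (by linarith) hθ1
      _ = N := Real.rpow_one _
  have h := H2 N ((le_max_left _ _).trans hN) 0 N T hNθ (by omega) hKT hT49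
  rw [zero_add] at h
  have hsub : (Ioc 0 N).filter (fun n : ℕ => ∀ t : ℕ, T ≤ t → t ≤ 2 * T →
      c * t / Real.log N ≤ (count r ((N : ℝ) ^ δ) n t : ℝ)) ⊆
      Icc 1 ⌊(N : ℝ) ^ (1 / 2 : ℝ)⌋₊ ∪ (Icc 1 N).filter (fun n : ℕ => c / 8 * Real.log n ≤
        (count r ((n : ℝ) ^ δ) n ⌊(Real.logb 2 n) ^ 2⌋₊ : ℝ)) := by
    intro n hn
    rw [mem_filter, mem_Ioc] at hn
    obtain ⟨⟨h1, h2⟩, h3⟩ := hn
    rw [mem_union]
    rcases le_or_gt (n : ℝ) ((N : ℝ) ^ (1 / 2 : ℝ)) with h4 | h4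
    · left
      rw [mem_Icc]
      exact ⟨h1, Nat.le_floor h4⟩
    · right
      rw [mem_filter, mem_Icc]
      refine ⟨⟨h1, h2⟩, ?_⟩
      have h3' := h3 T le_rfl (by omega)
      have hn0 : (0 : ℝ) < n := by exact_mod_cast h1
      have hnN : (n : ℝ) ≤ N := by exact_mod_cast h2
      have hlogn : l / 2 ≤ Real.log n := by
        have h5 := Real.log_le_log (by positivity) h4.le
        rw [Real.log_rpow hN0] at h5
        linarith
      have hlogn' : Real.log n ≤ l := Real.log_le_log hn0 hnN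
      have hTn : T ≤ ⌊(Real.logb 2 n) ^ 2⌋₊ := by
        apply Nat.floor_le_floor
        have h6 : l / 2 ≤ Real.logb 2 n := by
          unfold Real.logb
          rw [le_div_iff₀ hlog2]
          have h7 : l / 2 * Real.log 2 ≤ l / 2 * 1 := mul_le_mul_of_nonneg_left hlog2'.le (by linarith)
          linarith
        calc l ^ 2 / 4 = (l / 2) ^ 2 := by ring
          _ ≤ (Real.logb 2 n) ^ 2 := pow_le_pow_left₀ (by linarith) h6 2
      have h8 : (count r ((N : ℝ) ^ δ) n T : ℝ) ≤ (count r ((n : ℝ) ^ δ) n ⌊(Real.logb 2 n) ^ 2⌋₊ : ℝ) := by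
        exact_mod_cast count_mono r _ _ (Real.rpow_le_rpow hn0.le hnN hδ.le) n T _ hTn
      refine le_trans ?_ (h3'.trans h8)
      rw [le_div_iff₀ hl0]
      calc c / 8 * Real.log n * l ≤ c / 8 * l * l := by
            apply mul_le_mul_of_nonneg_right _ hl0.le
            exact mul_le_mul_of_nonneg_left hlogn' (by positivity)
        _ = c * (l ^ 2 / 8) := by ring
        _ ≤ c * T := mul_le_mul_of_nonneg_left hTge hc.le
  have hcard := (card_le_card hsub).trans (card_union_le _ _)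
  rw [Nat.card_Icc, Nat.add_sub_cancel] at hcard
  have hcardr : (((Ioc 0 N).filter (fun n : ℕ => ∀ t : ℕ, T ≤ t → t ≤ 2 * T →
      c * t / Real.log N ≤ (count r ((N : ℝ) ^ δ) n t : ℝ))).card : ℝ) ≤
      (⌊(N : ℝ) ^ (1 / 2 : ℝ)⌋₊ : ℝ) + (((Icc 1 N).filter (fun n : ℕ => c / 8 * Real.log n ≤
        (count r ((n : ℝ) ^ δ) n ⌊(Real.logb 2 n) ^ 2⌋₊ : ℝ))).card : ℝ) := by
    exact_mod_cast hcard
  have hs : (⌊(N : ℝ) ^ (1 / 2 : ℝ)⌋₊ : ℝ) ≤ (ρ' - ρ) * N := by
    have hr0 : (0 : ℝ) < (N : ℝ) ^ (1 / 2 : ℝ) := by positivity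
    refine (Nat.floor_le hr0.le).trans ?_
    have h1 : (N : ℝ) ^ (1 / 2 : ℝ) * (N : ℝ) ^ (1 / 2 : ℝ) = N := by
      rw [← Real.rpow_add hN0]
      norm_num
    rw [div_le_iff₀ hε] at v2
    have h2 := mul_le_mul_of_nonneg_right v2 hr0.le
    have h3 : (N : ℝ) ^ (1 / 2 : ℝ) * (ρ' - ρ) * (N : ℝ) ^ (1 / 2 : ℝ) = (ρ' - ρ) * N := by
      rw [mul_assoc, mul_comm (ρ' - ρ), ← mul_assoc, h1, mul_comm]
    rw [h3] at h2
    linarith
  linarith

open Classical in
/-- Let `(r, ρ)` be `(4, 0.84)` or `(3, 0.35)`.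

**(1)** There are `c, δ, K > 0` such that for all large `X`, in every window `(Z, Z + Y]`, `Z + Y ≤ 2 X`, with `Y ≥ X ^ 0.999`, and
for every `T` with `K log X ≤ T ≤ (log X) ^ 49`: for at least `ρ Y` of the `Y` integers `n` in `(Z, Z + Y]`, for ALL lengths
`T ≤ t ≤ 2 T` at the same time, the interval `(n², n² + t]` contains at least `c t / log X` integers with at most `r` prime
factors, all of them at least `X ^ δ`.

**(2)** The intervals of the question: there are `c, δ > 0` such that for all large `N` and at least `ρ N` of the `n ≤ N`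
the interval `(n², n² + (log n / log 2)²]` contains at least `c log n` integers with at most `r` prime factors, all of them
at least `n ^ δ`. -/
theorem result : ∀ (r : ℕ) (ρ : ℝ), (r = 4 ∧ ρ = 0.84) ∨ (r = 3 ∧ ρ = 0.35) →
    (∃ c δ K : ℝ, 0 < c ∧ 0 < δ ∧ 0 < K ∧ ∃ X₀ : ℕ, ∀ X : ℕ, X₀ ≤ X →
      ∀ Z Y T : ℕ, (X : ℝ) ^ (0.999 : ℝ) ≤ Y → Z + Y ≤ 2 * X → K * Real.log X ≤ T → (T : ℝ) ≤ Real.log X ^ 49 →
        ρ * Y ≤ (((Ioc Z (Z + Y)).filter (fun n : ℕ => ∀ t : ℕ, T ≤ t → t ≤ 2 * T →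
          c * t / Real.log X ≤ (count r ((X : ℝ) ^ δ) n t : ℝ))).card : ℝ)) ∧
    (∃ c δ : ℝ, 0 < c ∧ 0 < δ ∧ ∃ N₀ : ℕ, ∀ N : ℕ, N₀ ≤ N →
      ρ * N ≤ (((Icc 1 N).filter (fun n : ℕ => c * Real.log n ≤
        (count r ((n : ℝ) ^ δ) n ⌊(Real.logb 2 n) ^ 2⌋₊ : ℝ))).card : ℝ)) := by
  rintro r ρ (⟨rfl, rfl⟩ | ⟨rfl, rfl⟩)
  · have h1 := part1 4 0.999 0.159 0.16 (by norm_num) Pool.Agent.H37EP.fin4
    have h2 := part2 4 0.999 0.159 0.16 (by norm_num) (by norm_num) Pool.Agent.H37EP.fin4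
    have e : (1 - 0.16 : ℝ) = 0.84 := by norm_num
    rw [e] at h1 h2
    exact ⟨h1, h2⟩
  · have h1 := part1 3 0.999 0.649 0.65 (by norm_num) Pool.Agent.H37EP.fin3
    have h2 := part2 3 0.999 0.649 0.65 (by norm_num) (by norm_num) Pool.Agent.H37EP.fin3
    have e : (1 - 0.65 : ℝ) = 0.35 := by norm_num
    rw [e] at h1 h2
    exact ⟨h1, h2⟩

end Pool.Agent.Results.MP_73869e_nt.ExplicitProportions
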