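import Pool.Agent.H37SQ.Main

/-!
# Integers with at most five prime factors in `(n², n² + K log n]`, for almost all `n`

The question is whether every interval `(n², n² + (log n / log 2)²]`, `n > 4765516`, contains a prime. Here: for almost all
`n` the intervals `(n², n² + K log n]`, much shorter than those of the question, contain integers with at most `5` prime
factors, all of them larger than a power of `n`, and the number of these integers has the right order of magnitude. The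
exceptional `n` have small density in every window `(Z, Z + Y]`, `Y ≥ X ^ θ`, `X` the size of the `n`; for shorter windows the
number `5` is replaced by the smallest `r` with `θ Λ_r > 4`.

The law of large numbers `LawOfLargeNumbers` of the starting files (up to `2 r` prime factors, all above `X ^ (1 / r)`, `r`
large) is one ingredient; the level of distribution of the pairs `(n² + j) (n² + j')` is the length of the window, so each
of the two factors may be sifted up to the level `Y ^ (1 / 2)`, while `n² + j` has the size `X²`: this gives `r = 5` with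
Richert's weights (starting files, `Pool.Agent.Y882.KW`, `Pool.Agent.T6.H57.LamR`).

Method (new, `Pool.Agent.H37SQ`): the sieve weights are not small in mean square, so the second moment is not applied to
them: the primes below `X ^ ε₁` are sifted exactly, and the weights at the larger primes are bounded by a constant. For these
weights `w_j(n)`, with expected values `v_j`, the sum of `w_j(n) - v_j` over the `j` for which `n² + j` has no small prime factor is
small in mean square: by the fundamental lemma in the progressions given by the divisors of the weights the covariances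
are at most `2 ^ (-b)` times the main term, where `b ε₁` is fixed. The expected values are bounded from below for ALL
`j ≤ (log X) ^ 49`, by the theorem of Siegel and Walfisz.
-/

set_option autoImplicit false

namespace Pool.Agent.Results.MP_73869e_nt.FivePrimeFactors

open Finset Filter

open Classical in
/-- The number of the integers `m` with `n ^ 2 < m ≤ n ^ 2 + t` which have at most `r` prime factors (counted with
multiplicity), all of them at least `w`. -/
noncomputable def count (r : ℕ) (w : ℝ) (n t : ℕ) : ℕ :=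
  ((Ioc (n ^ 2) (n ^ 2 + t)).filter (fun m : ℕ => m.primeFactorsList.length ≤ r ∧
    ∀ p : ℕ, p.Prime → p ∣ m → w ≤ p)).card

/-- Richert's constant `Λ_r = r + 1 - log (4 / (1 + 3 ^ (-r))) / log 3 = 1 + log ((1 + 3 ^ r) / 4) / log 3`. -/
noncomputable def Lambda (r : ℕ) : ℝ := 1 + Real.log ((1 + 3 ^ r) / 4) / Real.log 3

/-! ### The forms of `Pool.Agent.H37SQ` -/

lemma count_eq (r : ℕ) (w : ℝ) (n t : ℕ) : count r w n t = Pool.Agent.H37SQ.cn r w t n := by
  classical
  unfold count Pool.Agent.H37SQ.cn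
  symm
  apply card_bij (fun j _ => n ^ 2 + j)
  · intro j hj
    rw [mem_filter, mem_Icc] at hj
    rw [mem_filter, mem_Ioc]
    exact ⟨by omega, hj.2⟩
  · intro a _ b _ h
    omega
  · intro m hm
    rw [mem_filter, mem_Ioc] at hm
    refine ⟨m - n ^ 2, ?_, by omega⟩
    have e : n ^ 2 + (m - n ^ 2) = m := by omega
    rw [mem_filter, mem_Icc, e]
    exact ⟨by omega, hm.2⟩

lemma count_mono (r : ℕ) (w w' : ℝ) (hw : w' ≤ w) (n t t' : ℕ) (h : t ≤ t') :
    count r w n t ≤ count r w' n t' := by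
  classical
  unfold count
  apply card_le_card
  intro m hm
  rw [mem_filter, mem_Ioc] at hm ⊢
  exact ⟨⟨hm.1.1, by omega⟩, hm.2.1, fun p hp hd => hw.trans (hm.2.2 p hp hd)⟩

lemma lam_gt (r a b : ℕ) (hb : 0 < b) (h : (3 : ℝ) ^ a < ((1 + 3 ^ r) / 4) ^ b) :
    1 + (a : ℝ) / b < Lambda r := by
  unfold Lambda
  have h3 : 0 < Real.log 3 := Real.log_pos (by norm_num)
  have hq : (0 : ℝ) < (1 + 3 ^ r) / 4 := by positivity
  have h1 := Real.log_lt_log (by positivity) h
  rw [Real.log_pow, Real.log_pow] at h1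
  have hb0 : (0 : ℝ) < b := by exact_mod_cast hb
  have h2 : (a : ℝ) / b < Real.log ((1 + 3 ^ r) / 4) / Real.log 3 := by
    rw [div_lt_div_iff₀ hb0 h3]
    linarith
  linarith

/-- the exponents -/
lemma nums : 4 < 0.85 * Lambda 5 ∧ 4 < 0.7 * Lambda 6 ∧ 4 < 0.6 * Lambda 7 ∧ 4 < 0.52 * Lambda 8 := by
  have h5 := lam_gt 5 63 17 (by norm_num) (by norm_num)
  have h6 := lam_gt 6 33 7 (by norm_num) (by norm_num)
  have h7 := lam_gt 7 17 3 (by norm_num) (by norm_num)
  have h8 := lam_gt 8 87 13 (by norm_num) (by norm_num)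
  norm_num at h5 h6 h7 h8
  refine ⟨?_, ?_, ?_, ?_⟩
  · linarith
  · linarith
  · linarith
  · linarith

open Classical in
/-- the first part of the theorem, for one `r` and one `θ` -/
lemma part1 (r : ℕ) (hr : 1 ≤ r) (θ : ℝ) (hθ : 0 < θ) (hθ1 : θ ≤ 1) (hL : 4 < θ * Lambda r) :
    ∃ c δ : ℝ, 0 < c ∧ 0 < δ ∧ ∀ ε : ℝ, 0 < ε → ∃ K : ℝ, 0 < K ∧ ∃ X₀ : ℕ, ∀ X : ℕ, X₀ ≤ X →
      ∀ Z Y T : ℕ, (X : ℝ) ^ θ ≤ Y → Z + Y ≤ 2 * X → K * Real.log X ≤ T → (T : ℝ) ≤ Real.log X ^ 49 →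
        (((Ioc Z (Z + Y)).filter (fun n : ℕ => ∃ t : ℕ, T ≤ t ∧ t ≤ 2 * T ∧
          (count r ((X : ℝ) ^ δ) n t : ℝ) < c * t / Real.log X)).card : ℝ) ≤ ε * Y := by
  obtain ⟨c, δ, hc, hδ, H⟩ := Pool.Agent.H37SQ.main r hr θ hθ hθ1 hL
  refine ⟨c / 2, δ, by positivity, hδ, fun ε hε => ?_⟩
  obtain ⟨K, hK, X₀, H2⟩ := H ε hε
  refine ⟨K, hK, max X₀ 3, fun X hX Z Y T hY hZ hT hT2 => ?_⟩
  refine le_trans ?_ (H2 X ((le_max_left _ _).trans hX) Z Y T hY hZ hT hT2)
  have hX3 : (3 : ℝ) ≤ X := by exact_mod_cast (le_max_right _ _).trans hX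
  have hl : 0 < Real.log X := Real.log_pos (by linarith)
  apply Nat.cast_le.2
  apply card_le_card
  intro n hn
  rw [mem_filter] at hn ⊢
  obtain ⟨h1, t, h2, h3, h4⟩ := hn
  refine ⟨h1, ?_⟩
  have h5 : ((Pool.Agent.H37SQ.cn r ((X : ℝ) ^ δ) T n : ℕ) : ℝ) ≤ (count r ((X : ℝ) ^ δ) n t : ℝ) := by
    rw [← count_eq]
    exact_mod_cast count_mono r _ _ le_rfl n T t h2
  refine h5.trans_lt (h4.trans_le ?_)
  apply div_le_div_of_nonneg_right _ hl.le
  have h6 : (t : ℝ) ≤ 2 * T := by exact_mod_cast h3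
  calc c / 2 * (t : ℝ) ≤ c / 2 * (2 * T) := mul_le_mul_of_nonneg_left h6 (by positivity)
    _ = c * T := by ring

open Classical in
/-- the intervals of the question -/
lemma part3 : ∃ c δ : ℝ, 0 < c ∧ 0 < δ ∧ ∀ ε : ℝ, 0 < ε → ∃ N₀ : ℕ, ∀ N : ℕ, N₀ ≤ N →
    (((Icc 1 N).filter (fun n : ℕ => (count 5 ((n : ℝ) ^ δ) n ⌊(Real.logb 2 n) ^ 2⌋₊ : ℝ) <
      c * Real.log n)).card : ℝ) ≤ ε * N := by
  obtain ⟨c, δ, hc, hδ, H⟩ := part1 5 (by norm_num) 1 one_pos le_rfl (by
    have := nums.1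
    linarith)
  refine ⟨c / 8, δ, by positivity, hδ, fun ε hε => ?_⟩
  obtain ⟨K, hK, X₀, H2⟩ := H (ε / 2) (by positivity)
  have hlogt : Tendsto (fun X : ℕ => Real.log X) atTop atTop :=
    Real.tendsto_log_atTop.comp tendsto_natCast_atTop_atTop
  have ev1 : ∀ᶠ N : ℕ in atTop, 4 * K + 8 ≤ Real.log N := hlogt.eventually_ge_atTop _
  have ev2 : ∀ᶠ N : ℕ in atTop, 2 / ε ≤ (N : ℝ) ^ (1 / 2 : ℝ) :=
    ((tendsto_rpow_atTop (by norm_num)).comp tendsto_natCast_atTop_atTop).eventually_ge_atTop _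
  obtain ⟨N1, hN1⟩ := eventually_atTop.1 (ev1.and (ev2.and (eventually_ge_atTop 3)))
  refine ⟨max X₀ N1, fun N hN => ?_⟩
  obtain ⟨v1, v2, v3⟩ := hN1 N ((le_max_right _ _).trans hN)
  have hNr : (3 : ℝ) ≤ N := by exact_mod_cast v3
  have hN0 : (0 : ℝ) < N := by linarith
  set l : ℝ := Real.log N with hl
  have hl8 : 8 ≤ l := by linarith
  have hl0 : 0 < l := by linarith
  have hlog2 : 0 < Real.log 2 := Real.log_pos (by norm_num)
  have hlog2' : Real.log 2 < 1 := by linarith [Real.log_two_lt_d9]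
  have hlog2'' : 1 / 2 < Real.log 2 := by linarith [Real.log_two_gt_d9]
  set T : ℕ := ⌊l ^ 2 / 4⌋₊ with hT
  have hTle : (T : ℝ) ≤ l ^ 2 / 4 := Nat.floor_le (by positivity)
  have hTge : l ^ 2 / 8 ≤ T := by
    have h1 := Nat.lt_floor_add_one (l ^ 2 / 4)
    rw [← hT] at h1
    have h2 : 8 * 8 ≤ l ^ 2 := by
      rw [sq]
      exact mul_le_mul hl8 hl8 (by norm_num) hl0.le
    linarith
  have hKT : K * Real.log N ≤ T := by
    refine le_trans ?_ (show l * (l / 4) - 1 ≤ T by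
      have h1 := Nat.lt_floor_add_one (l ^ 2 / 4)
      rw [← hT] at h1
      have e : l * (l / 4) = l ^ 2 / 4 := by ring
      rw [e]
      linarith)
    rw [← hl]
    have h2 : l * (K + 2) ≤ l * (l / 4) := mul_le_mul_of_nonneg_left (by linarith) hl0.le
    have h3 : l * (K + 2) = K * l + 2 * l := by ring
    linarith
  have hT49 : (T : ℝ) ≤ l ^ 49 := by
    refine hTle.trans ?_
    have h1 : l ^ 2 ≤ l ^ 49 := pow_le_pow_right₀ (by linarith) (by norm_num)
    have h2 : 0 ≤ l ^ 2 := by positivity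
    linarith
  have h := H2 N ((le_max_left _ _).trans hN) 0 N T (by rw [Real.rpow_one]) (by omega) hKT hT49
  rw [zero_add] at h
  -- the small `n`
  have hsub : (Icc 1 N).filter (fun n : ℕ => (count 5 ((n : ℝ) ^ δ) n ⌊(Real.logb 2 n) ^ 2⌋₊ : ℝ) <
      c / 8 * Real.log n) ⊆
      Icc 1 ⌊(N : ℝ) ^ (1 / 2 : ℝ)⌋₊ ∪ (Ioc 0 N).filter (fun n : ℕ => ∃ t : ℕ, T ≤ t ∧ t ≤ 2 * T ∧
          (count 5 ((N : ℝ) ^ δ) n t : ℝ) < c * t / Real.log N) := by
    intro n hn
    rw [mem_filter, mem_Icc] at hn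
    obtain ⟨⟨h1, h2⟩, h3⟩ := hn
    rw [mem_union]
    rcases le_or_gt (n : ℝ) ((N : ℝ) ^ (1 / 2 : ℝ)) with h4 | h4
    · left
      rw [mem_Icc]
      exact ⟨h1, Nat.le_floor h4⟩
    · right
      rw [mem_filter, mem_Ioc]
      refine ⟨⟨by omega, h2⟩, T, le_rfl, by omega, ?_⟩
      have hn0 : (0 : ℝ) < n := by exact_mod_cast h1
      have hnN : (n : ℝ) ≤ N := by exact_mod_cast h2
      have hlogn : l / 2 ≤ Real.log n := by
        have h5 := Real.log_le_log (by positivity) h4.le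
        rw [Real.log_rpow hN0] at h5
        linarith
      have hlogn' : Real.log n ≤ l := Real.log_le_log hn0 hnN
      have hTn : T ≤ ⌊(Real.logb 2 n) ^ 2⌋₊ := by
        apply Nat.floor_le_floor
        have h6 : l / 2 ≤ Real.logb 2 n := by
          unfold Real.logb
          rw [le_div_iff₀ hlog2]
          have h7 : l / 2 * Real.log 2 ≤ l / 2 * 1 := mul_le_mul_of_nonneg_left hlog2'.le (by linarith)
          linarith
        calc l ^ 2 / 4 = (l / 2) ^ 2 := by ring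
          _ ≤ (Real.logb 2 n) ^ 2 := pow_le_pow_left₀ (by linarith) h6 2
      have h8 : (count 5 ((N : ℝ) ^ δ) n T : ℝ) ≤ (count 5 ((n : ℝ) ^ δ) n ⌊(Real.logb 2 n) ^ 2⌋₊ : ℝ) := by
        exact_mod_cast count_mono 5 _ _ (Real.rpow_le_rpow hn0.le hnN hδ.le) n T _ hTn
      refine h8.trans_lt (h3.trans_le ?_)
      rw [le_div_iff₀ hl0]
      calc c / 8 * Real.log n * l ≤ c / 8 * l * l := by
            apply mul_le_mul_of_nonneg_right _ hl0.le
            exact mul_le_mul_of_nonneg_left hlogn' (by positivity)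
        _ = c * (l ^ 2 / 8) := by ring
        _ ≤ c * T := mul_le_mul_of_nonneg_left hTge hc.le
  have hcard := (card_le_card hsub).trans (card_union_le _ _)
  rw [Nat.card_Icc, Nat.add_sub_cancel] at hcard
  have hcardr : (((Icc 1 N).filter (fun n : ℕ => (count 5 ((n : ℝ) ^ δ) n ⌊(Real.logb 2 n) ^ 2⌋₊ : ℝ) <
      c / 8 * Real.log n)).card : ℝ) ≤
      (⌊(N : ℝ) ^ (1 / 2 : ℝ)⌋₊ : ℝ) + (((Ioc 0 N).filter (fun n : ℕ => ∃ t : ℕ, T ≤ t ∧ t ≤ 2 * T ∧
          (count 5 ((N : ℝ) ^ δ) n t : ℝ) < c * t / Real.log N)).card : ℝ) := by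
    exact_mod_cast hcard
  have hs : (⌊(N : ℝ) ^ (1 / 2 : ℝ)⌋₊ : ℝ) ≤ ε / 2 * N := by
    have hr0 : (0 : ℝ) < (N : ℝ) ^ (1 / 2 : ℝ) := by positivity
    refine (Nat.floor_le hr0.le).trans ?_
    have h1 : (N : ℝ) ^ (1 / 2 : ℝ) * (N : ℝ) ^ (1 / 2 : ℝ) = N := by
      rw [← Real.rpow_add hN0]
      norm_num
    rw [div_le_iff₀ hε] at v2
    have h2 := mul_le_mul_of_nonneg_right v2 hr0.le
    have h3 : (N : ℝ) ^ (1 / 2 : ℝ) * ε * (N : ℝ) ^ (1 / 2 : ℝ) = ε * N := by
      rw [mul_assoc, mul_comm ε, ← mul_assoc, h1, mul_comm]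
    rw [h3] at h2
    linarith
  linarith

open Classical in
/-- **(1)** Let `r ≥ 1`, `0 < θ ≤ 1` and `θ Λ_r > 4`. There are `c, δ > 0` such that for every `ε > 0` there is a `K` such that
for all large `X`, in every window `(Z, Z + Y]`, `Z + Y ≤ 2 X`, with `Y ≥ X ^ θ`, and for every `T` with
`K log X ≤ T ≤ (log X) ^ 49`: for all but at most `ε Y` of the integers `n` in `(Z, Z + Y]` and for ALL lengths `T ≤ t ≤ 2 T` at
the same time, the interval `(n², n² + t]` contains at least `c t / log X` integers with at most `r` prime factors, all of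
them at least `X ^ δ`.

**(2)** The condition holds for `r = 5`, `θ = 0.85`; for `r = 6`, `θ = 0.7`; for `r = 7`, `θ = 0.6`; for `r = 8`, `θ = 0.52`.

**(3)** The intervals of the question: there are `c, δ > 0` such that for almost all `n` (all `n` but a set of density zero)
the interval `(n², n² + (log n / log 2)²]` contains at least `c log n` integers with at most `5` prime factors, all of them
at least `n ^ δ`. -/
theorem result :
    (∀ r : ℕ, 1 ≤ r → ∀ θ : ℝ, 0 < θ → θ ≤ 1 → 4 < θ * Lambda r →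
      ∃ c δ : ℝ, 0 < c ∧ 0 < δ ∧ ∀ ε : ℝ, 0 < ε → ∃ K : ℝ, 0 < K ∧ ∃ X₀ : ℕ, ∀ X : ℕ, X₀ ≤ X →
        ∀ Z Y T : ℕ, (X : ℝ) ^ θ ≤ Y → Z + Y ≤ 2 * X → K * Real.log X ≤ T → (T : ℝ) ≤ Real.log X ^ 49 →
          (((Ioc Z (Z + Y)).filter (fun n : ℕ => ∃ t : ℕ, T ≤ t ∧ t ≤ 2 * T ∧
            (count r ((X : ℝ) ^ δ) n t : ℝ) < c * t / Real.log X)).card : ℝ) ≤ ε * Y) ∧
    (4 < 0.85 * Lambda 5 ∧ 4 < 0.7 * Lambda 6 ∧ 4 < 0.6 * Lambda 7 ∧ 4 < 0.52 * Lambda 8) ∧
    (∃ c δ : ℝ, 0 < c ∧ 0 < δ ∧ ∀ ε : ℝ, 0 < ε → ∃ N₀ : ℕ, ∀ N : ℕ, N₀ ≤ N →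
      (((Icc 1 N).filter (fun n : ℕ => (count 5 ((n : ℝ) ^ δ) n ⌊(Real.logb 2 n) ^ 2⌋₊ : ℝ) <
        c * Real.log n)).card : ℝ) ≤ ε * N) :=
  ⟨fun r hr θ hθ hθ1 hL => part1 r hr θ hθ hθ1 hL, nums, part3⟩

end Pool.Agent.Results.MP_73869e_nt.FivePrimeFactors
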