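import Pool.Agent.H37PS.Main
import Pool.Agent.H37PS.M1P
import Pool.Agent.H37PS.M2P
import Pool.Agent.H37PS.REGP
import Pool.Agent.H37PS.VAV
import Pool.Agent.H37PS.VPT
import Pool.Agent.H37PS.BVS
import Pool.Agent.H37PS.SYS
import Pool.Agent.H37PS.CNT

/-!
# Integers with at most five prime factors in `(p², p² + T]`, for a positive proportion of the primes `p`

The question is whether every interval `(n², n² + (log n / log 2)²]`, `n > 4765516`, contains a prime. Here `n = p` is itself a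
prime: for a proportion at least `c T / (T + log p)` of the primes `p` the interval `(p², p² + T]` contains integers with at most
FIVE prime factors, all of them larger than a power of `p`, for every length `T` from a constant up to `(log p) ^ 49`. For
`T = κ log p`, `κ > 0` fixed, and for the longer intervals of the question, this is a positive proportion of all the primes; for
`T < log p` the order `T / log p` of the proportion is the right one.

(The hand-ins `FivePrimeFactors`, `ThreePrimeFactors`, `ExplicitProportions` are about the integers `n`; the primes have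
proportion zero and are not covered by them.)

Method (new, `Pool.Agent.H37PS`): the first moment over the primes of the number of the almost primes, with Richert's
weights of level `X ^ (1 / 2)` (theorem of Bombieri and Vinogradov), against the second moment of the numbers of the
sifted `p² + j` over the primes `p`. Both are computed by a fundamental lemma for primes with conditions at further
large primes, whose error is a sum of the errors in the theorem of Bombieri and Vinogradov. The expected values of the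
weights are bounded for all `j ≤ (log X) ^ 49` (Siegel and Walfisz), and the averages over `j` of the singular series
of one and of two values are bounded from below and from above.
-/

set_option autoImplicit false

namespace Pool.Agent.Results.MP_73869e_nt.SquaresOfPrimes

open Finset Filter

open Classical in
/-- The number of the integers `m` with `n ^ 2 < m ≤ n ^ 2 + t` which have at most `r` prime factors (counted with
multiplicity), all of them at least `w`. -/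
noncomputable def count (r : ℕ) (w : ℝ) (n t : ℕ) : ℕ :=
  ((Ioc (n ^ 2) (n ^ 2 + t)).filter (fun m : ℕ => m.primeFactorsList.length ≤ r ∧
    ∀ p : ℕ, p.Prime → p ∣ m → w ≤ p)).card

/-- Richert's constant `Λ_r = r + 1 - log (4 / (1 + 3 ^ (-r))) / log 3 = 1 + log ((1 + 3 ^ r) / 4) / log 3`. -/
noncomputable def Lambda (r : ℕ) : ℝ := 1 + Real.log ((1 + 3 ^ r) / 4) / Real.log 3

/-! ### The forms of `Pool.Agent.H37SQ` -/

lemma count_eq (r : ℕ) (w : ℝ) (n t : ℕ) : count r w n t = Pool.Agent.H37SQ.cn r w t n := by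
  classical
  unfold count Pool.Agent.H37SQ.cn
  symm
  apply card_bij (fun j _ => n ^ 2 + j)
  · intro j hj
    rw [mem_filter, mem_Icc] at hj
    rw [mem_filter, mem_Ioc]
    exact ⟨by omega, hj.2⟩
  · intro a _ b _ h
    omega
  · intro m hm
    rw [mem_filter, mem_Ioc] at hm
    refine ⟨m - n ^ 2, ?_, by omega⟩
    have e : n ^ 2 + (m - n ^ 2) = m := by omega
    rw [mem_filter, mem_Icc, e]
    exact ⟨by omega, hm.2⟩

lemma count_mono (r : ℕ) (w w' : ℝ) (hw : w' ≤ w) (n t t' : ℕ) (h : t ≤ t') :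
    count r w n t ≤ count r w' n t' := by
  classical
  unfold count
  apply card_le_card
  intro m hm
  rw [mem_filter, mem_Ioc] at hm ⊢
  exact ⟨⟨hm.1.1, by omega⟩, hm.2.1, fun p hp hd => hw.trans (hm.2.2 p hp hd)⟩

lemma lam_gt (r a b : ℕ) (hb : 0 < b) (h : (3 : ℝ) ^ a < ((1 + 3 ^ r) / 4) ^ b) :
    1 + (a : ℝ) / b < Lambda r := by
  unfold Lambda
  have h3 : 0 < Real.log 3 := Real.log_pos (by norm_num)
  have hq : (0 : ℝ) < (1 + 3 ^ r) / 4 := by positivity
  have h1 := Real.log_lt_log (by positivity) h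
  rw [Real.log_pow, Real.log_pow] at h1
  have hb0 : (0 : ℝ) < b := by exact_mod_cast hb
  have h2 : (a : ℝ) / b < Real.log ((1 + 3 ^ r) / 4) / Real.log 3 := by
    rw [div_lt_div_iff₀ hb0 h3]
    linarith
  linarith

/-- the condition -/
lemma nums : 4 < Lambda 5 := by
  have h5 := lam_gt 5 101 27 (by norm_num) (by norm_num)
  norm_num at h5
  linarith

open Classical in
/-- the first part of the theorem, for one `r` -/
lemma part1 (r : ℕ) (hr : 1 ≤ r) (hL : 4 < Lambda r) :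
    ∃ c δ : ℝ, 0 < c ∧ 0 < δ ∧ ∃ T₀ X₀ : ℕ, ∀ X : ℕ, X₀ ≤ X → ∀ T : ℕ, T₀ ≤ T → (T : ℝ) ≤ Real.log X ^ 49 →
      c * (X / Real.log X) * (T / (T + Real.log X)) ≤ (((Icc 1 X).filter (fun p : ℕ => p.Prime ∧
        1 ≤ count r ((X : ℝ) ^ δ) p T ∧ c * T / Real.log X ≤ (count r ((X : ℝ) ^ δ) p T : ℝ))).card : ℝ) := by
  have hSYS := Pool.Agent.H37PS.SYS.t Pool.Agent.H37PS.CNT.t
  obtain ⟨c, δ, hc, hδ, T₀, X₀, H⟩ := Pool.Agent.H37PS.mainP (Pool.Agent.H37PS.M1P.t hSYS)
    (Pool.Agent.H37PS.M2P.t hSYS) Pool.Agent.H37PS.REGP.t (Pool.Agent.H37PS.VAV.t Pool.Agent.H37PS.VPT.t)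
    Pool.Agent.H37PS.BVS.t r hr hL
  refine ⟨c, δ, hc, hδ, T₀, X₀, fun X hX T hT hT2 => ?_⟩
  have h := H X hX T hT hT2
  refine h.trans (le_of_eq ?_)
  congr 2
  apply filter_congr
  intro n _
  rw [count_eq]

lemma sq_small (N : ℕ) (a : ℝ) (hN : 3 ≤ N) (ha : 0 < a) (h : 1 / a * Real.log N ≤ (N : ℝ) ^ (1 / 2 : ℝ)) :
    (⌊(N : ℝ) ^ (1 / 2 : ℝ)⌋₊ : ℝ) ≤ a * (N / Real.log N) := by
  have hNr : (3 : ℝ) ≤ N := by exact_mod_cast hN
  have hN0 : (0 : ℝ) < N := by linarith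
  have hl : 0 < Real.log N := Real.log_pos (by linarith)
  have hr0 : (0 : ℝ) < (N : ℝ) ^ (1 / 2 : ℝ) := by positivity
  refine (Nat.floor_le hr0.le).trans ?_
  have h1 : (N : ℝ) ^ (1 / 2 : ℝ) * (N : ℝ) ^ (1 / 2 : ℝ) = N := by
    rw [← Real.rpow_add hN0]
    norm_num
  rw [mul_div_assoc', le_div_iff₀ hl]
  have h2 := mul_le_mul_of_nonneg_left h (show 0 ≤ a * (N : ℝ) ^ (1 / 2 : ℝ) by positivity)
  have e1 : a * (N : ℝ) ^ (1 / 2 : ℝ) * (1 / a * Real.log N) = (N : ℝ) ^ (1 / 2 : ℝ) * Real.log N := by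
    field_simp
  have e2 : a * (N : ℝ) ^ (1 / 2 : ℝ) * (N : ℝ) ^ (1 / 2 : ℝ) = a * N := by rw [mul_assoc, h1]
  rw [e1, e2] at h2
  exact h2

open Classical in
/-- the intervals of length `κ log p` -/
lemma part3 : ∃ c δ : ℝ, 0 < c ∧ 0 < δ ∧ ∀ κ : ℝ, 0 < κ → ∃ N₀ : ℕ, ∀ N : ℕ, N₀ ≤ N →
    c * (κ / (κ + 1)) * (N / Real.log N) ≤ (((Icc 1 N).filter (fun p : ℕ => p.Prime ∧
      1 ≤ count 5 ((p : ℝ) ^ δ) p ⌊κ * Real.log p⌋₊ ∧
      c * κ ≤ (count 5 ((p : ℝ) ^ δ) p ⌊κ * Real.log p⌋₊ : ℝ))).card : ℝ) := by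
  obtain ⟨c, δ, hc, hδ, T₀, X₀, H⟩ := part1 5 (by norm_num) nums
  refine ⟨c / 8, δ, by positivity, hδ, fun κ hκ => ?_⟩
  have hκ1 : 0 < κ / (κ + 1) := by positivity
  have hlogt : Tendsto (fun X : ℕ => Real.log X) atTop atTop :=
    Real.tendsto_log_atTop.comp tendsto_natCast_atTop_atTop
  have ev1 : ∀ᶠ N : ℕ in atTop, (T₀ + 4) * (4 / κ) + 1 + κ / 2 ≤ Real.log N := hlogt.eventually_ge_atTop _
  have ev2 := Pool.Agent.H37SQ.ev_log 1 (1 / (c / 16 * (κ / (κ + 1)))) (1 / 2) (by positivity) (by norm_num)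
  obtain ⟨N1, hN1⟩ := eventually_atTop.1 (ev1.and (ev2.and (eventually_ge_atTop 3)))
  refine ⟨max X₀ N1, fun N hN => ?_⟩
  obtain ⟨v1, v2, v3⟩ := hN1 N ((le_max_right _ _).trans hN)
  rw [pow_one] at v2
  have hs := sq_small N (c / 16 * (κ / (κ + 1))) v3 (by positivity) v2
  have hNr : (3 : ℝ) ≤ N := by exact_mod_cast v3
  have hN0 : (0 : ℝ) < N := by linarith
  set l : ℝ := Real.log N with hl
  have hT₀ : (0 : ℝ) ≤ T₀ := Nat.cast_nonneg _
  have h4κ : 0 < 4 / κ := by positivity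
  have hTκ : (T₀ + 4 : ℝ) ≤ κ * l / 4 := by
    have h1 : (T₀ + 4) * (4 / κ) ≤ l := by linarith
    have h2 := mul_le_mul_of_nonneg_left h1 (show (0 : ℝ) ≤ κ / 4 by positivity)
    have e : κ / 4 * ((T₀ + 4) * (4 / κ)) = T₀ + 4 := by field_simp
    rw [e] at h2
    linarith
  have hl1 : 1 ≤ l := by
    have : 0 ≤ (T₀ + 4) * (4 / κ) := by positivity
    linarith
  have hl0 : 0 < l := by linarith
  have hκl : κ / 2 ≤ l := by
    have : 0 ≤ (T₀ + 4) * (4 / κ) := by positivity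
    linarith
  set T : ℕ := ⌊κ * l / 2⌋₊ with hT
  have hTle : (T : ℝ) ≤ κ * l / 2 := Nat.floor_le (by positivity)
  have hTge : κ * l / 4 ≤ T := by
    have h1 := Nat.lt_floor_add_one (κ * l / 2)
    rw [← hT] at h1
    linarith
  have hTT : T₀ ≤ T := by
    have : (T₀ : ℝ) ≤ T := by linarith
    exact_mod_cast this
  have hT49 : (T : ℝ) ≤ l ^ 49 := by
    refine hTle.trans ?_
    have h1 : l ^ 2 ≤ l ^ 49 := pow_le_pow_right₀ hl1 (by norm_num)
    have h2 : κ * l / 2 ≤ l ^ 2 := by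
      rw [sq]
      have := mul_le_mul_of_nonneg_right hκl hl0.le
      linarith
    linarith
  have h := H N ((le_max_left _ _).trans hN) T hTT hT49
  have hT0 : (0 : ℝ) < T := by linarith
  -- the proportion
  have hpr : κ / (κ + 1) / 4 ≤ (T : ℝ) / (T + Real.log N) := by
    rw [← hl, div_div, div_le_div_iff₀ (by positivity) (by positivity)]
    have h1 : κ * l ≤ 4 * T := by linarith
    nlinarith
  -- the small primes
  have hsub : (Icc 1 N).filter (fun p : ℕ => p.Prime ∧ 1 ≤ count 5 ((N : ℝ) ^ δ) p T ∧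
          c * T / Real.log N ≤ (count 5 ((N : ℝ) ^ δ) p T : ℝ)) ⊆
      Icc 1 ⌊(N : ℝ) ^ (1 / 2 : ℝ)⌋₊ ∪ (Icc 1 N).filter (fun p : ℕ => p.Prime ∧
        1 ≤ count 5 ((p : ℝ) ^ δ) p ⌊κ * Real.log p⌋₊ ∧
        c / 8 * κ ≤ (count 5 ((p : ℝ) ^ δ) p ⌊κ * Real.log p⌋₊ : ℝ)) := by
    intro n hn
    rw [mem_filter, mem_Icc] at hn
    obtain ⟨⟨h1, h2⟩, hpn, h3, h3'⟩ := hn
    rw [mem_union]
    rcases le_or_gt (n : ℝ) ((N : ℝ) ^ (1 / 2 : ℝ)) with h4 | h4
    · left
      rw [mem_Icc]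
      exact ⟨h1, Nat.le_floor h4⟩
    · right
      rw [mem_filter, mem_Icc]
      have hn0 : (0 : ℝ) < n := by exact_mod_cast h1
      have hnN : (n : ℝ) ≤ N := by exact_mod_cast h2
      have hlogn : l / 2 ≤ Real.log n := by
        have h5 := Real.log_le_log (by positivity) h4.le
        rw [Real.log_rpow hN0] at h5
        linarith
      have hTn : T ≤ ⌊κ * Real.log n⌋₊ := by
        apply Nat.floor_le_floor
        have := mul_le_mul_of_nonneg_left hlogn hκ.le
        linarith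
      have h8 : count 5 ((N : ℝ) ^ δ) n T ≤ count 5 ((n : ℝ) ^ δ) n ⌊κ * Real.log n⌋₊ :=
        count_mono 5 _ _ (Real.rpow_le_rpow hn0.le hnN hδ.le) n T _ hTn
      refine ⟨⟨by omega, h2⟩, hpn, h3.trans h8, ?_⟩
      have h9 : (count 5 ((N : ℝ) ^ δ) n T : ℝ) ≤ (count 5 ((n : ℝ) ^ δ) n ⌊κ * Real.log n⌋₊ : ℝ) := by
        exact_mod_cast h8
      refine le_trans ?_ (h3'.trans h9)
      rw [← hl, le_div_iff₀ hl0]
      calc c / 8 * κ * l ≤ c * (κ * l / 4) := by
            have : 0 ≤ c * (κ * l) := by positivity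
            linarith
        _ ≤ c * T := mul_le_mul_of_nonneg_left hTge hc.le
  have hcard := (card_le_card hsub).trans (card_union_le _ _)
  rw [Nat.card_Icc, Nat.add_sub_cancel] at hcard
  have hcardr : (((Icc 1 N).filter (fun p : ℕ => p.Prime ∧ 1 ≤ count 5 ((N : ℝ) ^ δ) p T ∧
          c * T / Real.log N ≤ (count 5 ((N : ℝ) ^ δ) p T : ℝ))).card : ℝ) ≤
      (⌊(N : ℝ) ^ (1 / 2 : ℝ)⌋₊ : ℝ) + (((Icc 1 N).filter (fun p : ℕ => p.Prime ∧
        1 ≤ count 5 ((p : ℝ) ^ δ) p ⌊κ * Real.log p⌋₊ ∧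
        c / 8 * κ ≤ (count 5 ((p : ℝ) ^ δ) p ⌊κ * Real.log p⌋₊ : ℝ))).card : ℝ) := by
    exact_mod_cast hcard
  have hNl : 0 < (N : ℝ) / l := by positivity
  have h10 : c * (N / l) * (κ / (κ + 1) / 4) ≤ c * (N / l) * ((T : ℝ) / (T + Real.log N)) :=
    mul_le_mul_of_nonneg_left hpr (by positivity)
  have h11 : 0 ≤ c * (κ / (κ + 1)) * (N / l) := by positivity
  have h12 : c * (N / l) * (κ / (κ + 1) / 4) = c * (κ / (κ + 1)) * (N / l) / 4 := by ring
  have h13 : c / 16 * (κ / (κ + 1)) * (N / l) = c * (κ / (κ + 1)) * (N / l) / 16 := by ring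
  have h14 : c / 8 * (κ / (κ + 1)) * (N / l) = c * (κ / (κ + 1)) * (N / l) / 8 := by ring
  rw [h13] at hs
  rw [h14]
  linarith

open Classical in
/-- the intervals of the question -/
lemma part4 : ∃ c δ : ℝ, 0 < c ∧ 0 < δ ∧ ∃ N₀ : ℕ, ∀ N : ℕ, N₀ ≤ N →
    c * (N / Real.log N) ≤ (((Icc 1 N).filter (fun p : ℕ => p.Prime ∧ c * Real.log p ≤
      (count 5 ((p : ℝ) ^ δ) p ⌊(Real.logb 2 p) ^ 2⌋₊ : ℝ))).card : ℝ) := by
  obtain ⟨c, δ, hc, hδ, T₀, X₀, H⟩ := part1 5 (by norm_num) nums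
  refine ⟨c / 8, δ, by positivity, hδ, ?_⟩
  have hlogt : Tendsto (fun X : ℕ => Real.log X) atTop atTop :=
    Real.tendsto_log_atTop.comp tendsto_natCast_atTop_atTop
  have ev1 : ∀ᶠ N : ℕ in atTop, (T₀ : ℝ) + 8 ≤ Real.log N := hlogt.eventually_ge_atTop _
  have ev2 := Pool.Agent.H37SQ.ev_log 1 (1 / (c / 8)) (1 / 2) (by positivity) (by norm_num)
  obtain ⟨N1, hN1⟩ := eventually_atTop.1 (ev1.and (ev2.and (eventually_ge_atTop 3)))
  refine ⟨max X₀ N1, fun N hN => ?_⟩
  obtain ⟨v1, v2, v3⟩ := hN1 N ((le_max_right _ _).trans hN)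
  rw [pow_one] at v2
  have hs := sq_small N (c / 8) v3 (by positivity) v2
  have hNr : (3 : ℝ) ≤ N := by exact_mod_cast v3
  have hN0 : (0 : ℝ) < N := by linarith
  have hT₀ : (0 : ℝ) ≤ T₀ := Nat.cast_nonneg _
  set l : ℝ := Real.log N with hl
  have hl8 : 8 ≤ l := by linarith
  have hl0 : 0 < l := by linarith
  have hlog2 : 0 < Real.log 2 := Real.log_pos (by norm_num)
  have hlog2' : Real.log 2 < 1 := by linarith [Real.log_two_lt_d9]
  set T : ℕ := ⌊l ^ 2 / 4⌋₊ with hT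
  have hTle : (T : ℝ) ≤ l ^ 2 / 4 := Nat.floor_le (by positivity)
  have hl2 : 8 * l ≤ l ^ 2 := by
    rw [sq]
    exact mul_le_mul_of_nonneg_right hl8 hl0.le
  have hTge : l ^ 2 / 8 ≤ T := by
    have h1 := Nat.lt_floor_add_one (l ^ 2 / 4)
    rw [← hT] at h1
    linarith
  have hTl : l ≤ T := by linarith
  have hTT : T₀ ≤ T := by
    have : (T₀ : ℝ) ≤ T := by linarith
    exact_mod_cast this
  have hT49 : (T : ℝ) ≤ l ^ 49 := by
    refine hTle.trans ?_
    have h1 : l ^ 2 ≤ l ^ 49 := pow_le_pow_right₀ (by linarith) (by norm_num)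
    have h2 : 0 ≤ l ^ 2 := by positivity
    linarith
  have h := H N ((le_max_left _ _).trans hN) T hTT hT49
  -- the proportion
  have hpr : (1 : ℝ) / 2 ≤ (T : ℝ) / (T + Real.log N) := by
    rw [← hl, div_le_div_iff₀ (by norm_num) (by linarith)]
    linarith
  -- the small primes
  have hsub : (Icc 1 N).filter (fun p : ℕ => p.Prime ∧ 1 ≤ count 5 ((N : ℝ) ^ δ) p T ∧
          c * T / Real.log N ≤ (count 5 ((N : ℝ) ^ δ) p T : ℝ)) ⊆
      Icc 1 ⌊(N : ℝ) ^ (1 / 2 : ℝ)⌋₊ ∪ (Icc 1 N).filter (fun p : ℕ => p.Prime ∧ c / 8 * Real.log p ≤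
        (count 5 ((p : ℝ) ^ δ) p ⌊(Real.logb 2 p) ^ 2⌋₊ : ℝ)) := by
    intro n hn
    rw [mem_filter, mem_Icc] at hn
    obtain ⟨⟨h1, h2⟩, hpn, h3, h3'⟩ := hn
    rw [mem_union]
    rcases le_or_gt (n : ℝ) ((N : ℝ) ^ (1 / 2 : ℝ)) with h4 | h4
    · left
      rw [mem_Icc]
      exact ⟨h1, Nat.le_floor h4⟩
    · right
      rw [mem_filter, mem_Icc]
      have hn0 : (0 : ℝ) < n := by exact_mod_cast h1
      have hnN : (n : ℝ) ≤ N := by exact_mod_cast h2
      have hlogn : l / 2 ≤ Real.log n := by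
        have h5 := Real.log_le_log (by positivity) h4.le
        rw [Real.log_rpow hN0] at h5
        linarith
      have hlogn' : Real.log n ≤ l := Real.log_le_log hn0 hnN
      have hTn : T ≤ ⌊(Real.logb 2 n) ^ 2⌋₊ := by
        apply Nat.floor_le_floor
        have h6 : l / 2 ≤ Real.logb 2 n := by
          unfold Real.logb
          rw [le_div_iff₀ hlog2]
          have h7 : l / 2 * Real.log 2 ≤ l / 2 * 1 := mul_le_mul_of_nonneg_left hlog2'.le (by linarith)
          linarith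
        calc l ^ 2 / 4 = (l / 2) ^ 2 := by ring
          _ ≤ (Real.logb 2 n) ^ 2 := pow_le_pow_left₀ (by linarith) h6 2
      have h8 : (count 5 ((N : ℝ) ^ δ) n T : ℝ) ≤ (count 5 ((n : ℝ) ^ δ) n ⌊(Real.logb 2 n) ^ 2⌋₊ : ℝ) := by
        exact_mod_cast count_mono 5 _ _ (Real.rpow_le_rpow hn0.le hnN hδ.le) n T _ hTn
      refine ⟨⟨by omega, h2⟩, hpn, ?_⟩
      refine le_trans ?_ (h3'.trans h8)
      rw [← hl, le_div_iff₀ hl0]
      calc c / 8 * Real.log n * l ≤ c / 8 * l * l := by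
            apply mul_le_mul_of_nonneg_right _ hl0.le
            exact mul_le_mul_of_nonneg_left hlogn' (by positivity)
        _ = c * (l ^ 2 / 8) := by ring
        _ ≤ c * T := mul_le_mul_of_nonneg_left hTge hc.le
  have hcard := (card_le_card hsub).trans (card_union_le _ _)
  rw [Nat.card_Icc, Nat.add_sub_cancel] at hcard
  have hcardr : (((Icc 1 N).filter (fun p : ℕ => p.Prime ∧ 1 ≤ count 5 ((N : ℝ) ^ δ) p T ∧
          c * T / Real.log N ≤ (count 5 ((N : ℝ) ^ δ) p T : ℝ))).card : ℝ) ≤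
      (⌊(N : ℝ) ^ (1 / 2 : ℝ)⌋₊ : ℝ) + (((Icc 1 N).filter (fun p : ℕ => p.Prime ∧ c / 8 * Real.log p ≤
        (count 5 ((p : ℝ) ^ δ) p ⌊(Real.logb 2 p) ^ 2⌋₊ : ℝ))).card : ℝ) := by
    exact_mod_cast hcard
  have hNl : 0 < (N : ℝ) / l := by positivity
  have h10 : c * (N / l) * (1 / 2) ≤ c * (N / l) * ((T : ℝ) / (T + Real.log N)) :=
    mul_le_mul_of_nonneg_left hpr (by positivity)
  have h11 : 0 ≤ c * (N / l) := by positivity
  have h12 : c / 8 * (N / l) = c * (N / l) / 8 := by ring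
  rw [h12] at hs ⊢
  linarith

open Classical in
/-- **(1)** Let `r ≥ 1` and `Λ_r > 4`. There are `c, δ > 0` and `T₀` such that for all large `X` and for every `T` with
`T₀ ≤ T ≤ (log X) ^ 49`: for at least `c (X / log X) T / (T + log X)` of the primes `p ≤ X` the interval `(p², p² + T]` contains
at least one, and at least `c T / log X`, integers with at most `r` prime factors, all of them at least `X ^ δ`.

**(2)** The condition holds for `r = 5`.

**(3)** Intervals of length `κ log p`: there are `c, δ > 0` such that for every `κ > 0` and all large `N`, for at least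
`c κ / (κ + 1) N / log N` of the primes `p ≤ N` the interval `(p², p² + κ log p]` contains at least one, and at least `c κ`,
integers with at most `5` prime factors, all of them at least `p ^ δ`.

**(4)** The intervals of the question: there are `c, δ > 0` such that for all large `N`, for at least `c N / log N` of the
primes `p ≤ N` the interval `(p², p² + (log p / log 2)²]` contains at least `c log p` integers with at most `5` prime factors,
all of them at least `p ^ δ`. -/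
theorem result :
    (∀ r : ℕ, 1 ≤ r → 4 < Lambda r →
      ∃ c δ : ℝ, 0 < c ∧ 0 < δ ∧ ∃ T₀ X₀ : ℕ, ∀ X : ℕ, X₀ ≤ X → ∀ T : ℕ, T₀ ≤ T → (T : ℝ) ≤ Real.log X ^ 49 →
        c * (X / Real.log X) * (T / (T + Real.log X)) ≤ (((Icc 1 X).filter (fun p : ℕ => p.Prime ∧
          1 ≤ count r ((X : ℝ) ^ δ) p T ∧ c * T / Real.log X ≤ (count r ((X : ℝ) ^ δ) p T : ℝ))).card : ℝ)) ∧
    4 < Lambda 5 ∧
    (∃ c δ : ℝ, 0 < c ∧ 0 < δ ∧ ∀ κ : ℝ, 0 < κ → ∃ N₀ : ℕ, ∀ N : ℕ, N₀ ≤ N →
      c * (κ / (κ + 1)) * (N / Real.log N) ≤ (((Icc 1 N).filter (fun p : ℕ => p.Prime ∧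
        1 ≤ count 5 ((p : ℝ) ^ δ) p ⌊κ * Real.log p⌋₊ ∧
        c * κ ≤ (count 5 ((p : ℝ) ^ δ) p ⌊κ * Real.log p⌋₊ : ℝ))).card : ℝ)) ∧
    (∃ c δ : ℝ, 0 < c ∧ 0 < δ ∧ ∃ N₀ : ℕ, ∀ N : ℕ, N₀ ≤ N →
      c * (N / Real.log N) ≤ (((Icc 1 N).filter (fun p : ℕ => p.Prime ∧ c * Real.log p ≤
        (count 5 ((p : ℝ) ^ δ) p ⌊(Real.logb 2 p) ^ 2⌋₊ : ℝ))).card : ℝ)) :=
  ⟨fun r hr hL => part1 r hr hL, nums, part3, part4⟩

end Pool.Agent.Results.MP_73869e_nt.SquaresOfPrimes
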